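import Pool.Agent.Lib.MP_fc28e0_an.Main

/-!
MP_fc28e0_an, Q2: there is a polygon (in fact a convex pentagon) whose billiard flow is
topologically mixing.
-/

namespace Pool.Agent.Results.MP_fc28e0_an.TopMixingPentagon

/-- There is a convex pentagon whose billiard flow is topologically mixing. -/
theorem result : ∃ P : PolyBilliard.Polygon, P.n = 5 ∧ Convex ℝ P.region ∧ P.TopMixing :=
  FC28.exists_topMixing

end Pool.Agent.Results.MP_fc28e0_an.TopMixingPentagon
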